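import Pool.Agent.Y645.UG.Stm2

/-!
# Zilber's form gives the graded principle
-/

set_option autoImplicit false

namespace Pool.Agent.Y77.UG

open MvPolynomial Module Pool.Agent.Y645.UL Pool.Agent.Y645.UG

theorem rel_sing {k ι : Type} [Field k] [Fintype ι] (x : ι → kˣ) : rel {x} = Lam x := by
  ext a
  rw [mem_Lam]
  constructor
  · intro h
    exact h x rfl
  · intro h y hy
    rw [Set.mem_singleton_iff] at hy
    rw [hy]
    exact h

theorem t_ZIL1 (hSUB : Pool.Agent.Y645.UG.S_SUB) (hTOR : Pool.Agent.Y645.UL.S_TOR)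
    (hNULL : Pool.Agent.Y645.UL.S_NULL) (hDIM : Pool.Agent.Y645.UL.S_DIM)
    (hREL : Pool.Agent.Y645.UL.S_REL) (hTD : Pool.Agent.Y645.UG.S_TDg) :
    Pool.Agent.Y645.UG.S_ZIL1 := by
  intro k _ _ _ c hZ δ hδ ι _ L _ _ w hw
  classical
  obtain ⟨S, hS1, hS2⟩ := hSUB k L ι w δ hw
  let wS : S → Lˣ := fun j => w j
  let Y : Set (S → kˣ) := ZZ k wS
  have hv : ∀ f : MvPolynomial S k, f ∈ van Y ↔ aeval (fun j => (wS j : L)) f = 0 :=
    fun f => hNULL k L S wS f
  have hsub : IsSubvar Y := by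
    refine ⟨⟨{f | aeval (fun j => (wS j : L)) f = 0}, rfl⟩, ?_⟩
    have h3 : van Y = RingHom.ker (aeval (fun j => (wS j : L)) : MvPolynomial S k →ₐ[k] L) := by
      ext f
      rw [RingHom.mem_ker]
      exact hv f
    rw [h3]
    exact RingHom.ker_isPrime _
  have hd : dimT Y = tdu k wS := hDIM k L S wS Y hv
  have hr : rel Y = ⊥ := (hREL k L S wS Y hv).trans hS1
  have hS3 : Fintype.card S = tdu k wS + (δ + 1) := by
    rw [Fintype.card_coe]
    exact hS2
  have hc : Fintype.card S ≤ dimT Y + c := by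
    rw [hd]
    omega
  have h1 : ¬ ∀ f : MvPolynomial S k,
      (∀ x ∈ Y, dimT Y < finrank ℤ (rel {x}) → eval (fun j => (x j : k)) f = 0) →
      ∀ x ∈ Y, eval (fun j => (x j : k)) f = 0 := fun h => hZ S Y hsub hc h hr
  push Not at h1
  obtain ⟨f, hf1, x0, hx0, hf2⟩ := h1
  have hf3 : aeval (fun j => (wS j : L)) f ≠ 0 := fun h => hf2 ((hv f).2 h x0 hx0)
  refine ⟨rename Subtype.val f, ?_, ?_⟩
  · rw [aeval_rename]
    exact hf3
  · intro L' _ _ x hx hxr
    by_contra hne
    rw [aeval_rename] at hne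
    let xS : S → L'ˣ := fun j => x j
    obtain ⟨p, hp1, hp2, hp3⟩ := hTOR k L' S xS f hne
    have hpY : p ∈ Y := by
      intro g hg
      have h2 := hx (rename Subtype.val g) (by rw [aeval_rename]; exact hg)
      rw [aeval_rename] at h2
      have h3 := hp1 g h2
      rwa [aeval_eq_eval] at h3
    have h4 := hTD k L' ι S x (fun m => Pi.single m.1 1)
    have h5 : (fun m : S => mon x (Pi.single (m : ι) (1 : ℤ))) = xS := by
      funext m
      rw [mon_single, zpow_one]
    rw [h5] at h4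
    have h6 := mrk_add p
    rw [← rel_sing] at h6
    refine hp2 (hf1 p hpY ?_)
    rw [hd]
    omega

end Pool.Agent.Y77.UG

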