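import Pool.Agent.Y782.UG.Stm

/-!
Job UG-RAB: types of the root, rules (a) and (b).
-/

set_option autoImplicit false

open MeasureTheory ProbabilityTheory Filter Topology
open scoped ENNReal BigOperators

namespace Pool.Agent.Y77.UG.AB

open Pool.Agent.Y782.UG

theorem tendsto_eps : Tendsto (fun ε : ℝ => (ε : ℂ)) (𝓝[>] 0) (𝓝 0) := by
  have h : Tendsto (fun ε : ℝ => (ε : ℂ)) (𝓝 0) (𝓝 ((0 : ℝ) : ℂ)) :=
    Complex.continuous_ofReal.tendsto 0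
  rw [Complex.ofReal_zero] at h
  exact h.mono_left nhdsWithin_le_nhds

/-- the denominator -/
noncomputable def HH (n : ℕ) (lam : ℝ) (ν : ℕ → Measure ℝ) (ε : ℝ) : ℂ :=
  pt lam ε + ∑ i ∈ Finset.range n, G (ν i) (pt lam ε)

theorem lim_H (h2 : S_L2) (n : ℕ) (lam : ℝ) (ν : ℕ → Measure ℝ)
    (hν : ∀ i, IsProbabilityMeasure (ν i)) (hf : ∀ i < n, fin lam (ν i)) :
    Tendsto (fun ε : ℝ => (HH n lam ν ε -
        ((lam + ∑ i ∈ Finset.range n, rr lam (ν i) : ℝ) : ℂ)) / (ε : ℂ)) (𝓝[>] 0)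
      (𝓝 (((1 + ∑ i ∈ Finset.range n, DD lam (ν i) : ℝ) : ℂ) * Complex.I)) := by
  have e1 : Tendsto (fun ε : ℝ => Complex.I +
      ∑ i ∈ Finset.range n, (G (ν i) (pt lam ε) - ((rr lam (ν i) : ℝ) : ℂ)) / (ε : ℂ)) (𝓝[>] 0)
      (𝓝 (Complex.I + ∑ i ∈ Finset.range n, ((DD lam (ν i) : ℝ) : ℂ) * Complex.I)) := by
    refine tendsto_const_nhds.add ?_
    refine tendsto_finsetSum _ fun i hi => ?_
    have := hν i
    exact (h2 (ν i) lam (hf i (Finset.mem_range.1 hi))).2.2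
  have e2 : Complex.I + ∑ i ∈ Finset.range n, ((DD lam (ν i) : ℝ) : ℂ) * Complex.I =
      ((1 + ∑ i ∈ Finset.range n, DD lam (ν i) : ℝ) : ℂ) * Complex.I := by
    rw [← Finset.sum_mul, Complex.ofReal_add, Complex.ofReal_one, Complex.ofReal_sum]
    ring
  rw [e2] at e1
  refine e1.congr' ?_
  filter_upwards [self_mem_nhdsWithin] with ε hε
  have hε0 : (ε : ℂ) ≠ 0 := Complex.ofReal_ne_zero.2 (ne_of_gt hε)
  unfold HH
  rw [← Finset.sum_div, Finset.sum_sub_distrib, Complex.ofReal_add, Complex.ofReal_sum]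
  unfold pt
  field_simp
  ring

theorem S_pos (h2 : S_L2) (n : ℕ) (lam : ℝ) (ν : ℕ → Measure ℝ)
    (hν : ∀ i, IsProbabilityMeasure (ν i)) (hf : ∀ i < n, fin lam (ν i)) :
    0 < 1 + ∑ i ∈ Finset.range n, DD lam (ν i) := by
  have : 0 ≤ ∑ i ∈ Finset.range n, DD lam (ν i) := Finset.sum_nonneg fun i hi => by
    have := hν i
    exact (h2 (ν i) lam (hf i (Finset.mem_range.1 hi))).1.le
  linarith

/-- rule (a) -/
theorem ra (h1 : S_L1) (h2 : S_L2) : S_RA := by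
  intro n lam μ ν hμ hν hG hf hc
  have hS := S_pos h2 n lam ν hν hf
  have hlim := lim_H h2 n lam ν hν hf
  rw [hc] at hlim
  set S : ℝ := 1 + ∑ i ∈ Finset.range n, DD lam (ν i) with hSd
  have hSC : ((S : ℝ) : ℂ) ≠ 0 := Complex.ofReal_ne_zero.2 hS.ne'
  have hlim2 : Tendsto (fun ε : ℝ => (ε : ℂ) * G μ (pt lam ε)) (𝓝[>] 0)
      (𝓝 (((1 / S : ℝ) : ℂ) * Complex.I)) := by
    have e1 := (hlim.inv₀ (mul_ne_zero hSC Complex.I_ne_zero)).neg
    have e2 : -((S : ℂ) * Complex.I)⁻¹ = ((1 / S : ℝ) : ℂ) * Complex.I := by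
      rw [mul_inv, Complex.inv_I]
      push_cast
      ring
    rw [e2] at e1
    refine e1.congr' ?_
    filter_upwards [self_mem_nhdsWithin] with ε hε
    rw [hG ε hε, Complex.ofReal_zero, sub_zero, inv_div]
    unfold HH
    ring
  have e3 := tendsto_nhds_unique (h1 μ lam) hlim2
  have e4 := mul_right_cancel₀ Complex.I_ne_zero e3
  exact_mod_cast e4

/-- rule (b) -/
theorem rb (_h1 : S_L1) (h2 : S_L2) (h4 : S_L4) : S_RB := by
  intro n lam μ ν hμ hν hG hf hc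
  have hlim := lim_H h2 n lam ν hν hf
  set S : ℝ := 1 + ∑ i ∈ Finset.range n, DD lam (ν i) with hSd
  set c : ℝ := lam + ∑ i ∈ Finset.range n, rr lam (ν i) with hcd
  have hcC : ((c : ℝ) : ℂ) ≠ 0 := Complex.ofReal_ne_zero.2 hc
  have hH : Tendsto (fun ε : ℝ => HH n lam ν ε) (𝓝[>] 0) (𝓝 (c : ℂ)) := by
    have e1 : Tendsto (fun ε : ℝ => (c : ℂ) + (ε : ℂ) * ((HH n lam ν ε - (c : ℂ)) / (ε : ℂ)))
        (𝓝[>] 0) (𝓝 ((c : ℂ) + 0 * ((S : ℂ) * Complex.I))) :=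
      tendsto_const_nhds.add (tendsto_eps.mul hlim)
    rw [zero_mul, add_zero] at e1
    refine e1.congr' ?_
    filter_upwards [self_mem_nhdsWithin] with ε hε
    have hε0 : (ε : ℂ) ≠ 0 := Complex.ofReal_ne_zero.2 (ne_of_gt hε)
    field_simp
    ring
  have hHne : ∀ᶠ ε in 𝓝[>] (0 : ℝ), HH n lam ν ε ≠ 0 := hH.eventually_ne hcC
  have hGe : ∀ ε : ℝ, 0 < ε → G μ (pt lam ε) = -(HH n lam ν ε)⁻¹ := by
    intro ε hε
    rw [hG ε hε, neg_div, one_div]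
    rfl
  have hG0 : Tendsto (fun ε : ℝ => G μ (pt lam ε)) (𝓝[>] 0) (𝓝 (((-1 / c : ℝ)) : ℂ)) := by
    have e1 := (hH.inv₀ hcC).neg
    have e2 : -((c : ℂ))⁻¹ = ((-1 / c : ℝ) : ℂ) := by
      push_cast
      ring
    rw [e2] at e1
    refine e1.congr' ?_
    filter_upwards [self_mem_nhdsWithin] with ε hε
    rw [hGe ε hε]
  have hG1 : Tendsto (fun ε : ℝ => (G μ (pt lam ε) - ((-1 / c : ℝ) : ℂ)) / (ε : ℂ)) (𝓝[>] 0)
      (𝓝 (((S / c ^ 2 : ℝ) : ℂ) * Complex.I)) := by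
    have e1 : Tendsto (fun ε : ℝ => ((HH n lam ν ε - (c : ℂ)) / (ε : ℂ)) *
        ((c : ℂ) * HH n lam ν ε)⁻¹) (𝓝[>] 0) (𝓝 ((S : ℂ) * Complex.I * ((c : ℂ) * (c : ℂ))⁻¹)) :=
      hlim.mul ((hH.const_mul _).inv₀ (mul_ne_zero hcC hcC))
    have e2 : (S : ℂ) * Complex.I * ((c : ℂ) * (c : ℂ))⁻¹ =
        ((S / c ^ 2 : ℝ) : ℂ) * Complex.I := by
      push_cast
      field_simp
    rw [e2] at e1
    refine e1.congr' ?_
    filter_upwards [self_mem_nhdsWithin, hHne] with ε hε hne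
    have hε0 : (ε : ℂ) ≠ 0 := Complex.ofReal_ne_zero.2 (ne_of_gt hε)
    rw [hGe ε hε]
    push_cast
    field_simp
    ring
  have hfin : fin lam μ := by
    apply h4 μ lam (S / c ^ 2 + 1)
    apply Eventually.frequently
    have e1 : Tendsto (fun ε : ℝ => ((G μ (pt lam ε) - ((-1 / c : ℝ) : ℂ)) / (ε : ℂ)).im)
        (𝓝[>] 0) (𝓝 ((((S / c ^ 2 : ℝ) : ℂ) * Complex.I).im)) :=
      (Complex.continuous_im.tendsto _).comp hG1
    rw [Complex.mul_I_im, Complex.ofReal_re] at e1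
    have e2 := e1.eventually_lt_const (u := S / c ^ 2 + 1) (by linarith)
    filter_upwards [e2] with ε hε
    rw [Complex.div_ofReal_im, Complex.sub_im, Complex.ofReal_im, sub_zero] at hε
    exact hε.le
  obtain ⟨-, k2, k3⟩ := h2 μ lam hfin
  have hrr : rr lam μ = -1 / c := by
    have e1 := tendsto_nhds_unique k2 hG0
    exact_mod_cast e1
  refine ⟨hfin, hrr, ?_⟩
  rw [hrr] at k3
  have e3 := tendsto_nhds_unique k3 hG1
  have e4 := mul_right_cancel₀ Complex.I_ne_zero e3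
  exact_mod_cast e4

end Pool.Agent.Y77.UG.AB
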