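import Pool.Agent.Y782.UG.Stm

/-!
Job UG-RCD: types of the root, rules (c) and (d).
-/

set_option autoImplicit false

open MeasureTheory ProbabilityTheory Filter Topology
open scoped ENNReal BigOperators

namespace Pool.Agent.Y77.UG

open Pool.Agent.Y782.UG

theorem tendsto_eps : Tendsto (fun ε : ℝ => (ε : ℂ)) (𝓝[>] 0) (𝓝 0) := by
  have h : Tendsto (fun ε : ℝ => (ε : ℂ)) (𝓝 0) (𝓝 ((0 : ℝ) : ℂ)) :=
    Complex.continuous_ofReal.tendsto 0
  rw [Complex.ofReal_zero] at h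
  exact h.mono_left nhdsWithin_le_nhds

theorem tendsto_pt (lam : ℝ) : Tendsto (fun ε : ℝ => pt lam ε) (𝓝[>] 0) (𝓝 (lam : ℂ)) := by
  have h : Tendsto (fun ε : ℝ => (lam : ℂ) + (ε : ℂ) * Complex.I) (𝓝[>] 0)
      (𝓝 ((lam : ℂ) + 0 * Complex.I)) := tendsto_const_nhds.add (tendsto_eps.mul_const _)
  rw [zero_mul, add_zero] at h
  exact h

/-- the denominator -/
noncomputable def HH (n : ℕ) (lam : ℝ) (ν : ℕ → Measure ℝ) (ε : ℝ) : ℂ :=
  pt lam ε + ∑ i ∈ Finset.range n, G (ν i) (pt lam ε)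

theorem eps_H (h1 : S_L1) (n : ℕ) (lam : ℝ) (ν : ℕ → Measure ℝ)
    (hν : ∀ i, IsProbabilityMeasure (ν i)) :
    Tendsto (fun ε : ℝ => (ε : ℂ) * HH n lam ν ε) (𝓝[>] 0)
      (𝓝 (((∑ i ∈ Finset.range n, (ν i).real {lam} : ℝ) : ℂ) * Complex.I)) := by
  have e1 : Tendsto (fun ε : ℝ => (ε : ℂ) * pt lam ε +
      ∑ i ∈ Finset.range n, (ε : ℂ) * G (ν i) (pt lam ε)) (𝓝[>] 0)
      (𝓝 (0 * (lam : ℂ) + ∑ i ∈ Finset.range n,
        (((ν i).real {lam} : ℝ) : ℂ) * Complex.I)) := by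
    refine (tendsto_eps.mul (tendsto_pt lam)).add ?_
    refine tendsto_finsetSum _ fun i _ => ?_
    have := hν i
    exact h1 (ν i) lam
  have e2 : (0 * (lam : ℂ) + ∑ i ∈ Finset.range n, (((ν i).real {lam} : ℝ) : ℂ) * Complex.I) =
      ((∑ i ∈ Finset.range n, (ν i).real {lam} : ℝ) : ℂ) * Complex.I := by
    rw [zero_mul, zero_add, ← Finset.sum_mul, Complex.ofReal_sum]
  rw [e2] at e1
  refine e1.congr fun ε => ?_
  unfold HH
  rw [mul_add, Finset.mul_sum]

/-- rule (c) -/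
theorem rc (h1 : S_L1) (h2 : S_L2) (h4 : S_L4) : S_RC := by
  intro n lam μ ν hμ hν hG hex
  obtain ⟨j, hj, hjm⟩ := hex
  set M : ℝ := ∑ i ∈ Finset.range n, (ν i).real {lam} with hM
  have hM0 : 0 < M := by
    rw [hM]
    exact Finset.sum_pos' (fun i _ => measureReal_nonneg) ⟨j, Finset.mem_range.2 hj, hjm⟩
  have hMC : ((M : ℝ) : ℂ) ≠ 0 := Complex.ofReal_ne_zero.2 hM0.ne'
  have hlim := eps_H h1 n lam ν hν
  rw [← hM] at hlim
  have hlim2 : Tendsto (fun ε : ℝ => G μ (pt lam ε) / (ε : ℂ)) (𝓝[>] 0)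
      (𝓝 (((1 / M : ℝ) : ℂ) * Complex.I)) := by
    have e1 := (hlim.inv₀ (mul_ne_zero hMC Complex.I_ne_zero)).neg
    have e2 : -((M : ℂ) * Complex.I)⁻¹ = ((1 / M : ℝ) : ℂ) * Complex.I := by
      rw [mul_inv, Complex.inv_I]
      push_cast
      ring
    rw [e2] at e1
    refine e1.congr' ?_
    filter_upwards [self_mem_nhdsWithin] with ε hε
    rw [hG ε hε]
    unfold HH
    rw [mul_inv, div_div, neg_div, one_div, mul_inv, mul_comm]
  have hfin : fin lam μ := by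
    apply h4 μ lam (1 / M + 1)
    apply Eventually.frequently
    have e1 : Tendsto (fun ε : ℝ => (G μ (pt lam ε) / (ε : ℂ)).im) (𝓝[>] 0)
        (𝓝 ((((1 / M : ℝ) : ℂ) * Complex.I).im)) := (Complex.continuous_im.tendsto _).comp hlim2
    rw [Complex.mul_I_im, Complex.ofReal_re] at e1
    have e2 : ∀ᶠ ε in 𝓝[>] (0 : ℝ), (G μ (pt lam ε) / (ε : ℂ)).im < 1 / M + 1 :=
      e1.eventually_lt_const (by linarith)
    filter_upwards [e2] with ε hε
    rw [Complex.div_ofReal_im] at hε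
    exact hε.le
  obtain ⟨-, k2, k3⟩ := h2 μ lam hfin
  have hG0 : Tendsto (fun ε : ℝ => G μ (pt lam ε)) (𝓝[>] 0) (𝓝 0) := by
    have e1 := tendsto_eps.mul hlim2
    rw [zero_mul] at e1
    refine e1.congr' ?_
    filter_upwards [self_mem_nhdsWithin] with ε hε
    have : (ε : ℂ) ≠ 0 := Complex.ofReal_ne_zero.2 (ne_of_gt hε)
    field_simp
  have hrr : rr lam μ = 0 := by
    have e1 := tendsto_nhds_unique k2 hG0
    exact_mod_cast e1
  refine ⟨hfin, hrr, ?_⟩
  rw [hrr] at k3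
  have e2 : Tendsto (fun ε : ℝ => G μ (pt lam ε) / (ε : ℂ)) (𝓝[>] 0)
      (𝓝 (((DD lam μ : ℝ) : ℂ) * Complex.I)) := by
    refine k3.congr fun ε => ?_
    rw [Complex.ofReal_zero, sub_zero]
  have e3 := tendsto_nhds_unique e2 hlim2
  have e4 := mul_right_cancel₀ Complex.I_ne_zero e3
  exact_mod_cast e4

theorem G_im_nonneg (μ : Measure ℝ) (lam : ℝ) {ε : ℝ} (hε : 0 < ε) :
    0 ≤ (G μ (pt lam ε)).im := by
  unfold G
  by_cases hi : Integrable (fun x : ℝ => 1 / ((x : ℂ) - pt lam ε)) μ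
  · have h1 := integral_im hi
    have h2 : (∫ x : ℝ, 1 / ((x : ℂ) - pt lam ε) ∂μ).im =
        ∫ x : ℝ, (1 / ((x : ℂ) - pt lam ε)).im ∂μ := h1.symm
    rw [h2]
    refine integral_nonneg fun x => ?_
    change 0 ≤ (1 / ((x : ℂ) - pt lam ε)).im
    rw [one_div, Complex.inv_im]
    apply div_nonneg _ (Complex.normSq_nonneg _)
    unfold pt
    simp only [Complex.sub_im, Complex.ofReal_im, Complex.add_im, Complex.mul_im,
      Complex.ofReal_re, Complex.I_im, Complex.I_re]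
    linarith
  · rw [integral_undef hi, Complex.zero_im]

/-- rule (d) -/
theorem rd (h1 : S_L1) (h2 : S_L2) (h3 : S_L3) : S_RD := by
  intro n lam μ ν hμ hν hG hm hex
  obtain ⟨j, hj, hjf⟩ := hex
  set b : ℕ → ℝ → ℝ := fun i ε => (G (ν i) (pt lam ε)).im / ε with hb
  set a : ℕ → ℝ → ℝ := fun i ε => (G (ν i) (pt lam ε)).re with ha
  set T : ℝ → ℝ := fun ε => ∑ i ∈ Finset.range n, b i ε with hT
  have hb0 : ∀ i (ε : ℝ), 0 < ε → 0 ≤ b i ε := fun i ε hε =>
    div_nonneg (G_im_nonneg _ _ hε) hε.le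
  have hbT : ∀ i < n, ∀ ε : ℝ, 0 < ε → b i ε ≤ T ε := fun i hi ε hε =>
    Finset.single_le_sum (f := fun i => b i ε) (fun k _ => hb0 k ε hε) (Finset.mem_range.2 hi)
  have hm0 : ∀ i < n, (ν i) {lam} = 0 := by
    intro i hi
    have := hν i
    exact (measureReal_eq_zero_iff (measure_ne_top _ _)).1 (hm i hi)
  have hTtop : Tendsto T (𝓝[>] 0) atTop := by
    have := hν j
    have e1 := (h3 (ν j) lam (hm0 j hj) hjf).1
    refine tendsto_atTop_mono' _ ?_ e1
    filter_upwards [self_mem_nhdsWithin] with ε hε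
    exact hbT j hj ε hε
  have hT1 : Tendsto (fun ε => 1 + T ε) (𝓝[>] 0) atTop := tendsto_atTop_add_const_left _ _ hTtop
  have hinv : Tendsto (fun ε => 1 / (1 + T ε)) (𝓝[>] 0) (𝓝 0) := by
    simp only [one_div]
    exact hT1.inv_tendsto_atTop
  -- the squares of the real parts
  have hai : ∀ i < n, Tendsto (fun ε => a i ε ^ 2 / (1 + T ε)) (𝓝[>] 0) (𝓝 0) := by
    intro i hi
    have := hν i
    by_cases hf : fin lam (ν i)
    · obtain ⟨-, k2, -⟩ := h2 (ν i) lam hf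
      have e1 : Tendsto (fun ε => a i ε) (𝓝[>] 0) (𝓝 ((rr lam (ν i) : ℂ).re)) :=
        (Complex.continuous_re.tendsto _).comp k2
      have e2 := (e1.pow 2).mul hinv
      rw [mul_zero] at e2
      refine e2.congr fun ε => ?_
      rw [mul_one_div]
    · obtain ⟨k1, k2⟩ := h3 (ν i) lam (hm0 i hi) hf
      refine squeeze_zero' ?_ ?_ k2
      · filter_upwards [self_mem_nhdsWithin] with ε hε
        have : 0 ≤ T ε := (hb0 i ε hε).trans (hbT i hi ε hε)
        positivity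
      · filter_upwards [self_mem_nhdsWithin, k1.eventually_gt_atTop 0] with ε hε hpos
        have e1 : b i ε ≤ 1 + T ε := by linarith [hbT i hi ε hε]
        exact div_le_div_of_nonneg_left (sq_nonneg _) hpos e1
  have hre : ∀ ε, (HH n lam ν ε).re = lam + ∑ i ∈ Finset.range n, a i ε := by
    intro ε
    unfold HH pt
    rw [Complex.add_re, Complex.re_sum]
    simp [ha, pt]
  have him : ∀ ε : ℝ, 0 < ε → (HH n lam ν ε).im = ε * (1 + T ε) := by
    intro ε hε
    have e1 : ∀ i, (G (ν i) (pt lam ε)).im = ε * b i ε := by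
      intro i
      simp only [hb]
      field_simp
    unfold HH
    rw [Complex.add_im, Complex.im_sum]
    simp only [e1]
    rw [← Finset.mul_sum, mul_add]
    simp [pt, hT]
  have hRe : Tendsto (fun ε => (HH n lam ν ε).re ^ 2 / (1 + T ε)) (𝓝[>] 0) (𝓝 0) := by
    have e1 : Tendsto (fun ε => 2 * lam ^ 2 * (1 / (1 + T ε)) +
        2 * (n : ℝ) * ∑ i ∈ Finset.range n, a i ε ^ 2 / (1 + T ε)) (𝓝[>] 0)
        (𝓝 (2 * lam ^ 2 * 0 + 2 * (n : ℝ) * ∑ i ∈ Finset.range n, (0 : ℝ))) :=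
      (hinv.const_mul _).add ((tendsto_finsetSum _ fun i hi =>
        hai i (Finset.mem_range.1 hi)).const_mul _)
    rw [Finset.sum_const_zero, mul_zero, mul_zero, add_zero] at e1
    refine squeeze_zero' ?_ ?_ e1
    · filter_upwards [self_mem_nhdsWithin] with ε hε
      have : 0 ≤ T ε := (hb0 j ε hε).trans (hbT j hj ε hε)
      positivity
    · filter_upwards [self_mem_nhdsWithin] with ε hε
      have hT0 : 0 ≤ T ε := (hb0 j ε hε).trans (hbT j hj ε hε)
      have k1 : (∑ i ∈ Finset.range n, a i ε) ^ 2 ≤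
          (n : ℝ) * ∑ i ∈ Finset.range n, a i ε ^ 2 := by
        have := sq_sum_le_card_mul_sum_sq (s := Finset.range n) (f := fun i => a i ε)
        rwa [Finset.card_range] at this
      have k2 : (HH n lam ν ε).re ^ 2 ≤
          2 * lam ^ 2 + 2 * (n : ℝ) * ∑ i ∈ Finset.range n, a i ε ^ 2 := by
        rw [hre]
        nlinarith [sq_nonneg (lam - ∑ i ∈ Finset.range n, a i ε)]
      rw [← Finset.sum_div, mul_one_div, ← mul_div_assoc, ← add_div]
      exact div_le_div_of_nonneg_right k2 (by linarith)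
  have hIm : Tendsto (fun ε => ε ^ 2 * (1 + T ε)) (𝓝[>] 0) (𝓝 0) := by
    have e1 := eps_H h1 n lam ν hν
    have e2 : ∑ i ∈ Finset.range n, (ν i).real {lam} = 0 :=
      Finset.sum_eq_zero fun i hi => hm i (Finset.mem_range.1 hi)
    rw [e2, Complex.ofReal_zero, zero_mul] at e1
    have e3 : Tendsto (fun ε : ℝ => ((ε : ℂ) * HH n lam ν ε).im) (𝓝[>] 0) (𝓝 ((0 : ℂ).im)) :=
      (Complex.continuous_im.tendsto _).comp e1
    rw [Complex.zero_im] at e3
    refine e3.congr' ?_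
    filter_upwards [self_mem_nhdsWithin] with ε hε
    rw [Complex.im_ofReal_mul, him ε hε]
    ring
  -- the imaginary part of the transform of `μ`
  have hGi : ∀ ε : ℝ, 0 < ε → (G μ (pt lam ε)).im =
      ε * ((HH n lam ν ε).re ^ 2 / (1 + T ε) + ε ^ 2 * (1 + T ε))⁻¹ := by
    intro ε hε
    have hT0 : 0 < 1 + T ε := by linarith [(hb0 j ε hε).trans (hbT j hj ε hε)]
    have e1 : G μ (pt lam ε) = -(HH n lam ν ε)⁻¹ := by
      rw [hG ε hε, neg_div, one_div]
      rfl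
    rw [e1, Complex.neg_im, Complex.inv_im, neg_div, neg_neg, Complex.normSq_apply, him ε hε]
    have h2 : 0 < (HH n lam ν ε).re * (HH n lam ν ε).re +
        ε * (1 + T ε) * (ε * (1 + T ε)) :=
      add_pos_of_nonneg_of_pos (mul_self_nonneg _) (mul_pos (mul_pos hε hT0) (mul_pos hε hT0))
    have h3 : (HH n lam ν ε).re ^ 2 / (1 + T ε) + ε ^ 2 * (1 + T ε) =
        ((HH n lam ν ε).re * (HH n lam ν ε).re + ε * (1 + T ε) * (ε * (1 + T ε))) /
          (1 + T ε) := by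
      field_simp
    rw [h3, inv_div, mul_div_assoc]
  have hpos : ∀ ε : ℝ, 0 < ε →
      0 < (HH n lam ν ε).re ^ 2 / (1 + T ε) + ε ^ 2 * (1 + T ε) := by
    intro ε hε
    have hT0 : 0 < 1 + T ε := by linarith [(hb0 j ε hε).trans (hbT j hj ε hε)]
    positivity
  have hsum : Tendsto (fun ε => (HH n lam ν ε).re ^ 2 / (1 + T ε) + ε ^ 2 * (1 + T ε))
      (𝓝[>] 0) (𝓝[>] 0) := by
    rw [tendsto_nhdsWithin_iff]
    constructor
    · have := hRe.add hIm
      rwa [add_zero] at this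
    · filter_upwards [self_mem_nhdsWithin] with ε hε
      exact hpos ε hε
  have hGtop : Tendsto (fun ε => (G μ (pt lam ε)).im / ε) (𝓝[>] 0) atTop := by
    have e1 := tendsto_inv_nhdsGT_zero.comp hsum
    refine e1.congr' ?_
    filter_upwards [self_mem_nhdsWithin] with ε hε
    rw [hGi ε hε, mul_div_cancel_left₀ _ (ne_of_gt hε)]
    rfl
  constructor
  · intro hf
    obtain ⟨-, -, k3⟩ := h2 μ lam hf
    have e1 : Tendsto (fun ε : ℝ => ((G μ (pt lam ε) - ((rr lam μ : ℝ) : ℂ)) / (ε : ℂ)).im)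
        (𝓝[>] 0) (𝓝 ((((DD lam μ : ℝ) : ℂ) * Complex.I).im)) :=
      (Complex.continuous_im.tendsto _).comp k3
    have e2 : Tendsto (fun ε => (G μ (pt lam ε)).im / ε) (𝓝[>] 0)
        (𝓝 ((((DD lam μ : ℝ) : ℂ) * Complex.I).im)) := by
      refine e1.congr fun ε => ?_
      rw [Complex.div_ofReal_im, Complex.sub_im, Complex.ofReal_im, sub_zero]
    exact not_tendsto_nhds_of_tendsto_atTop hGtop _ e2
  · have e1 : Tendsto (fun ε : ℝ => ((ε : ℂ) * G μ (pt lam ε)).im) (𝓝[>] 0)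
        (𝓝 ((((μ.real {lam} : ℝ) : ℂ) * Complex.I).im)) :=
      (Complex.continuous_im.tendsto _).comp (h1 μ lam)
    rw [Complex.mul_I_im, Complex.ofReal_re] at e1
    have e2 : Tendsto (fun ε : ℝ => ((ε : ℂ) * G μ (pt lam ε)).im) (𝓝[>] 0) (𝓝 0) := by
      refine squeeze_zero' ?_ ?_ hinv
      · filter_upwards [self_mem_nhdsWithin] with ε hε
        rw [Complex.im_ofReal_mul]
        exact mul_nonneg (le_of_lt hε) (G_im_nonneg _ _ hε)
      · filter_upwards [self_mem_nhdsWithin] with ε hε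
        have hε' : 0 < ε := hε
        have hT0 : 0 < 1 + T ε := by linarith [(hb0 j ε hε).trans (hbT j hj ε hε)]
        rw [Complex.im_ofReal_mul, hGi ε hε, ← mul_assoc]
        have k1 : ε ^ 2 * (1 + T ε) ≤
            (HH n lam ν ε).re ^ 2 / (1 + T ε) + ε ^ 2 * (1 + T ε) := by
          have : 0 ≤ (HH n lam ν ε).re ^ 2 / (1 + T ε) := by positivity
          linarith
        have k2 : ((HH n lam ν ε).re ^ 2 / (1 + T ε) + ε ^ 2 * (1 + T ε))⁻¹ ≤
            (ε ^ 2 * (1 + T ε))⁻¹ := inv_anti₀ (by positivity) k1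
        calc ε * ε * ((HH n lam ν ε).re ^ 2 / (1 + T ε) + ε ^ 2 * (1 + T ε))⁻¹
            ≤ ε * ε * (ε ^ 2 * (1 + T ε))⁻¹ := mul_le_mul_of_nonneg_left k2 (by positivity)
          _ = 1 / (1 + T ε) := by field_simp
    exact tendsto_nhds_unique e1 e2

end Pool.Agent.Y77.UG
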