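import Pool.Agent.Y782.UG.Base2

/-!
Job UG-T1A: mass transport of the spectral mass, all blocks.
-/

set_option autoImplicit false

open MeasureTheory ProbabilityTheory Filter Topology
open scoped ENNReal BigOperators

namespace Pool.Agent.Y77.UG.T1A

open Pool.Agent.Y782.UG

variable {Δ : ℕ}

open Classical in
/-- the first weight -/
noncomputable def w1 (r D : Tr Δ → ℝ) (u v : Tr Δ) : ℝ≥0∞ :=
  if Ed r u v then ENNReal.ofReal ((D u / |r u|) / (D u / |r u| + D v / |r v|)) else 0

open Classical in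
/-- the indicator of the edges -/
noncomputable def ss (r : Tr Δ → ℝ) (u v : Tr Δ) : ℝ≥0∞ := if Ed r u v then 1 else 0

/-- a child with mass -/
def MC (m : Tr Δ → ℝ) : Set (Tr Δ) := {u | ∃ j < nch u, 0 < m (sub u j)}

open Classical in
/-- the second weight -/
noncomputable def w2 (m : Tr Δ → ℝ) (u v : Tr Δ) : ℝ≥0∞ :=
  if (u ∈ MC m ∧ 0 < m v) then
    ENNReal.ofReal (m v / (∑ j ∈ Finset.range (nch u), m (sub u j) + m v)) else 0

variable {lam : ℝ} {m r D : Tr Δ → ℝ} {F : Set (Tr Δ)}

theorem meas_w1 (h : Typ Δ lam m r D F) :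
    Measurable (fun x : Tr Δ × Tr Δ => w1 r D x.1 x.2) := by
  classical
  unfold w1
  have h1 : Measurable (fun x : Tr Δ × Tr Δ => D x.1 / |r x.1|) :=
    (h.mD.comp measurable_fst).div (h.mr.comp measurable_fst).abs
  have h2 : Measurable (fun x : Tr Δ × Tr Δ => D x.2 / |r x.2|) :=
    (h.mD.comp measurable_snd).div (h.mr.comp measurable_snd).abs
  exact Measurable.ite (measurableSet_Ed h.mr) (h1.div (h1.add h2)).ennreal_ofReal
    measurable_const

theorem meas_ss (h : Typ Δ lam m r D F) :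
    Measurable (fun x : Tr Δ × Tr Δ => ss r x.1 x.2) := by
  classical
  unfold ss
  exact Measurable.ite (measurableSet_Ed h.mr) measurable_const measurable_const

theorem meas_MC (h : Typ Δ lam m r D F) : MeasurableSet (MC m) :=
  measurableSet_ex (P := {u | 0 < m u}) (measurableSet_lt measurable_const h.mm)

theorem meas_w2 (h : Typ Δ lam m r D F) :
    Measurable (fun x : Tr Δ × Tr Δ => w2 m x.1 x.2) := by
  classical
  unfold w2
  have h1 : Measurable (fun x : Tr Δ × Tr Δ => m x.2) := h.mm.comp measurable_snd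
  have h2 : Measurable (fun x : Tr Δ × Tr Δ => ∑ j ∈ Finset.range (nch x.1), m (sub x.1 j)) :=
    (measurable_sum_sub h.mm).comp measurable_fst
  have h3 : MeasurableSet {x : Tr Δ × Tr Δ | x.1 ∈ MC m ∧ 0 < m x.2} :=
    (measurable_fst (meas_MC h)).inter (measurableSet_lt measurable_const h1)
  exact Measurable.ite h3 (h1.div (h2.add h1)).ennreal_ofReal measurable_const

theorem Ed_symm {u v : Tr Δ} (h : Ed r u v) : Ed r v u :=
  ⟨h.2.1, h.1, by rw [mul_comm]; exact h.2.2⟩

theorem w1_add (h : Typ Δ lam m r D F) (u v : Tr Δ) : w1 r D u v + w1 r D v u = ss r u v := by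
  classical
  unfold w1 ss
  by_cases hE : Ed r u v
  · rw [if_pos hE, if_pos (Ed_symm hE), if_pos hE]
    have hu := h.FD u (good_of_ne h hE.1).1
    have hv := h.FD v (good_of_ne h hE.2.1).1
    have ha : 0 < D u / |r u| := div_pos hu (abs_pos.2 hE.1)
    have hb : 0 < D v / |r v| := div_pos hv (abs_pos.2 hE.2.1)
    rw [← ENNReal.ofReal_add (by positivity) (by positivity), add_comm (D v / |r v|), ← add_div,
      div_self (by positivity), ENNReal.ofReal_one]
  · rw [if_neg hE, if_neg (fun hE' => hE (Ed_symm hE')), if_neg hE, add_zero]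

theorem term_le (h : Typ Δ lam m r D F) {t : Tr Δ} (ht : t ∈ Bk lam r F) {i : ℕ}
    (hi : i < nch t) : w1 r D (sub t i) (rem t i) + w2 m (sub t i) (rem t i) ≤
      ENNReal.ofReal (D (sub t i) / (1 + ∑ j ∈ Finset.range (nch t), D (sub t j))) := by
  classical
  set Z := 1 + ∑ j ∈ Finset.range (nch t), D (sub t j) with hZ
  have hZ0 : 0 < Z := by
    have := sumD_nonneg h t ht.1
    rw [hZ]
    linarith
  have hDi := h.FD _ (ht.1 i hi)
  by_cases hr : r (sub t i) = 0
  · have e1 : w1 r D (sub t i) (rem t i) = 0 := by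
      unfold w1
      rw [if_neg (fun hE : Ed r (sub t i) (rem t i) => hE.1 hr)]
    rw [e1, zero_add]
    unfold w2
    split_ifs with hc
    · obtain ⟨k1, k2, k3, k4⟩ := rem_zero h ht hi hr
      have hM := sum_m_pos h k3
      have hm' := hc.2
      apply ENNReal.ofReal_le_ofReal
      rw [← hZ] at k2
      rw [← k2, k4]
      apply le_of_eq
      field_simp
    · exact zero_le
  · have e1 : w2 m (sub t i) (rem t i) = 0 := by
      unfold w2
      rw [if_neg (fun hc => hr (back h t hi hc.1 hc.2).2)]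
    rw [e1, add_zero]
    unfold w1
    rw [if_pos ((ed_iff h t hi).2 ⟨ht, hr⟩)]
    obtain ⟨k1, k2, k3⟩ := rem_good h ht hi hr
    apply ENNReal.ofReal_le_ofReal
    rw [k2, hZ.trans k3.symm]
    have hr0 : 0 < |r (sub t i)| := abs_pos.2 hr
    have hD' := h.FD _ k1
    rw [abs_div, abs_one, ← sq_abs (r (sub t i))]
    apply le_of_eq
    field_simp
    ring

theorem point1 (h : Typ Δ lam m r D F) (t : Tr Δ) :
    ∑ i ∈ Finset.range (nch t), w1 r D (sub t i) (rem t i) +
      ∑ i ∈ Finset.range (nch t), w2 m (sub t i) (rem t i) ≤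
        (Bk lam r F).indicator (fun _ => (1 : ℝ≥0∞)) t := by
  classical
  by_cases ht : t ∈ Bk lam r F
  · rw [Set.indicator_of_mem ht, ← Finset.sum_add_distrib]
    refine (Finset.sum_le_sum fun i hi => term_le h ht (Finset.mem_range.1 hi)).trans ?_
    have h0 := sumD_nonneg h t ht.1
    rw [← ENNReal.ofReal_sum_of_nonneg]
    · rw [← ENNReal.ofReal_one]
      apply ENNReal.ofReal_le_ofReal
      rw [← Finset.sum_div, div_le_one (by linarith)]
      linarith
    · intro i hi
      have := h.FD _ (ht.1 i (Finset.mem_range.1 hi))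
      exact div_nonneg this.le (by linarith)
  · rw [Set.indicator_of_notMem ht]
    apply le_of_eq
    rw [← Finset.sum_add_distrib]
    refine Finset.sum_eq_zero fun i hi => ?_
    have hi' := Finset.mem_range.1 hi
    unfold w1 w2
    rw [if_neg (fun hE => ht ((ed_iff h t hi').1 hE).1),
      if_neg (fun hc => ht (back h t hi' hc.1 hc.2).1), add_zero]

theorem point2 (h : Typ Δ lam m r D F) (t : Tr Δ) :
    ∑ i ∈ Finset.range (nch t), ss r (sub t i) (rem t i) =
      (Bk lam r F).indicator (fun t => (dg r t : ℝ≥0∞)) t := by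
  classical
  by_cases ht : t ∈ Bk lam r F
  · rw [Set.indicator_of_mem ht, dg_eq]
    refine Finset.sum_congr rfl fun i hi => ?_
    have hi' := Finset.mem_range.1 hi
    unfold ss
    by_cases hr : r (sub t i) = 0
    · rw [if_neg (fun hE : Ed r (sub t i) (rem t i) => hE.1 hr), Set.indicator_of_notMem]
      exact fun hc => hc hr
    · rw [if_pos ((ed_iff h t hi').2 ⟨ht, hr⟩), Set.indicator_of_mem]
      exact hr
  · rw [Set.indicator_of_notMem ht]
    refine Finset.sum_eq_zero fun i hi => ?_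
    unfold ss
    rw [if_neg (fun hE => ht ((ed_iff h t (Finset.mem_range.1 hi)).1 hE).1)]

theorem point3 (h : Typ Δ lam m r D F) {t : Tr Δ} (ht : t ∈ Two m) :
    1 ≤ ∑ i ∈ Finset.range (nch t), w2 m (rem t i) (sub t i) := by
  classical
  obtain ⟨i1, hi1, i2, hi2, hne, hm1, hm2⟩ := ht
  set Mu := ∑ j ∈ Finset.range (nch t), m (sub t j) with hMu
  have hMu0 : 0 < Mu := sum_m_pos h ⟨i1, hi1, hm1⟩
  have hterm : ∀ i ∈ Finset.range (nch t), w2 m (rem t i) (sub t i) =
      ENNReal.ofReal (m (sub t i) / Mu) := by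
    intro i hi
    have hi' := Finset.mem_range.1 hi
    unfold w2
    by_cases hm : 0 < m (sub t i)
    · have hMC : rem t i ∈ MC m := by
        by_contra hcon
        have hcon' : ∀ j < nch (rem t i), ¬ 0 < m (sub (rem t i) j) := fun j hj hp =>
          hcon ⟨j, hj, hp⟩
        have hall := (forall_rem t hi' (fun u => ¬ 0 < m u)).1 hcon'
        by_cases h1 : i1 = i
        · exact hall i2 hi2 (fun h2 => hne (h1.trans h2.symm)) hm2
        · exact hall i1 hi1 h1 hm1
      rw [if_pos ⟨hMC, hm⟩, sum_rem t hi' m]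
    · have hm' : m (sub t i) = 0 := le_antisymm (not_lt.1 hm) (h.m0 _)
      rw [if_neg (fun hc => hm hc.2), hm', zero_div, ENNReal.ofReal_zero]
  rw [Finset.sum_congr rfl hterm, ← ENNReal.ofReal_sum_of_nonneg
    (fun i _ => div_nonneg (h.m0 _) hMu0.le), ← Finset.sum_div, div_self hMu0.ne',
    ENNReal.ofReal_one]

/-- **UG-T1A** -/
theorem t1a : S_T1A := by
  classical
  intro Δ p ph _ _ mb hT lam m r D F h
  have e1 := half hT (w1 r D) (ss r) (meas_w1 h) (meas_ss h) (w1_add h)
  have e2 : ∫⁻ t, ∑ i ∈ Finset.range (nch t), ss r (sub t i) (rem t i) ∂(Q0 p ph) =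
      ∫⁻ t in Bk lam r F, (dg r t : ℝ≥0∞) ∂(Q0 p ph) := by
    rw [← lintegral_indicator (measurableSet_Bk h.mr h.mF)]
    exact lintegral_congr fun t => point2 h t
  have hm1 : Measurable (fun t : Tr Δ =>
      ∑ i ∈ Finset.range (nch t), w1 r D (sub t i) (rem t i)) :=
    measurable_sum_nch fun i => (meas_w1 h).comp ((measurable_sub i).prodMk (measurable_rem i))
  have e3 : ∫⁻ t, ∑ i ∈ Finset.range (nch t), w1 r D (sub t i) (rem t i) ∂(Q0 p ph) +
      ∫⁻ t, ∑ i ∈ Finset.range (nch t), w2 m (sub t i) (rem t i) ∂(Q0 p ph) ≤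
        Q0 p ph (Bk lam r F) := by
    rw [← lintegral_add_left hm1]
    refine (lintegral_mono fun t => point1 h t).trans ?_
    rw [lintegral_indicator (measurableSet_Bk h.mr h.mF), setLIntegral_one]
  have e4 := swap hT (w2 m) (meas_w2 h)
  have hm2 : Measurable (fun t : Tr Δ =>
      ∑ i ∈ Finset.range (nch t), w2 m (rem t i) (sub t i)) :=
    measurable_sum_nch fun i => (meas_w2 h).comp ((measurable_rem i).prodMk (measurable_sub i))
  have e5 : Q0 p ph (Two m) ≤
      ∫⁻ t, ∑ i ∈ Finset.range (nch t), w2 m (rem t i) (sub t i) ∂(Q0 p ph) := by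
    have k1 := mul_meas_ge_le_lintegral (μ := Q0 p ph) hm2 1
    rw [one_mul] at k1
    exact (measure_mono fun t ht => point3 h ht).trans k1
  rw [← e4] at e5
  rw [← e2, ← e1, ← mul_add]
  refine mul_le_mul_right ?_ 2
  rw [add_comm]
  exact (add_le_add le_rfl e5).trans e3

end Pool.Agent.Y77.UG.T1A
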